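import Mathlib
import Pool.Agent.H9.ApolarReg.Defs
import Pool.Agent.H9.ApolarReg.Main

/-!
# The largest regularity of an irredundant `0`-dimensional scheme apolar to a form

`M(1, d) = 0`, `M(2, d) = d`, and `M(n, d) = ∞` for all `n ≥ 3`, `d ≥ 1`.  For `n ≥ 3` and any
`a > d` the curvilinear scheme `Spec ℂ[t]/(t^{a+1})` given by `(1 : t : t^a : 0 : … : 0)` is
irredundant for `X_0^{d-1} X_2` and has regularity `a - 1`.
-/

namespace Pool.Agent.Results.MP_254873_ag.RegOfIrredundantSchemes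

open Pool.Agent.H9.ApolarReg

/-- The values of `M(n, d)` for all `n ≥ 1` and `d ≥ 1`. -/
theorem result (d : ℕ) (hd : 1 ≤ d) :
    ((regs 1 d).Nonempty ∧ M 1 d = 0) ∧ M 2 d = d ∧ ∀ n, 3 ≤ n → M n d = ⊤ :=
  main d hd

end Pool.Agent.Results.MP_254873_ag.RegOfIrredundantSchemes
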